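import Pool.Agent.Helper980.Polar.Gch

/-!
# Over every model of GCH, the relation `(λ⁺, λ⁺) → (λ⁺, ℵ₁; λ, λ)` can be forced to fail, with
GCH and all cardinals preserved

Assume GCH. For every cardinal `λ > cf λ = ℵ₀` (for example `ℵ_ω`) there is a notion of forcing
all of whose conditions force the following three sentences: all cardinals of the ground model
are cardinals, GCH holds, and there is a partition `λ⁺ × λ⁺ = Δ₀ ∪ Δ₁` such that no product of a
set of size `λ⁺` and a set of size `λ` is contained in `Δ₀` and no product of a set of size `ℵ₁`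
and a set of size `λ` is contained in `Δ₁`.
-/

set_option autoImplicit false

namespace Pool.Agent.Results.MP_d40573_lc.ForcedUnderGCH

open Cardinal Ordinal Pool.Agent.Helper980.G
open Pool.Agent.Helper669.Forcing (fnot CardinalsPreserved)

/-- Some notion of forcing `P` is such that all its conditions force that all cardinals are
preserved, that GCH holds, and that the relation `(λ⁺, λ⁺) → (λ⁺, ℵ₁; λ, λ)` fails. -/
def FailureForced (lam : Cardinal.{0}) : Prop :=
  ∃ (P : Type) (_ : Preorder P), Nonempty P ∧ ∀ p : P,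
    p ∈ CardinalsPreserved.{0, 0} P ∧ p ∈ ForcesGCH P ∧
    p ∈ fnot (RelationS P (Order.succ lam).ord.ToType lam.ord.ToType
      (ℵ_ 1 : Cardinal.{0}).ord.ToType)

theorem cof_aleph_omega : (ℵ_ (ω : Ordinal.{0})).ord.cof = ℵ₀ := by
  rw [ord_aleph, cof_omega isSuccLimit_omega0, cof_omega0]

/-- **Main theorem.** -/
theorem result (hG : ∀ ν : Cardinal.{0}, ℵ₀ ≤ ν → 2 ^ ν = Order.succ ν) :
    (∀ lam : Cardinal.{0}, ℵ₀ < lam → lam.ord.cof = ℵ₀ → FailureForced lam) ∧
    FailureForced (ℵ_ (ω : Ordinal.{0})) := by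
  have h1 : ∀ lam : Cardinal.{0}, ℵ₀ < lam → lam.ord.cof = ℵ₀ → FailureForced lam :=
    fun lam h0 h1 => forcedS hG lam h0 h1
  refine ⟨h1, h1 _ ?_ cof_aleph_omega⟩
  rw [← aleph_zero]
  exact aleph_lt_aleph.2 omega0_pos

end Pool.Agent.Results.MP_d40573_lc.ForcedUnderGCH
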